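import Pool.Agent.H24.CL.Targets

/-!
# GA: the game (row GA of clv_modules)
-/

set_option autoImplicit false

open Finset

namespace Pool.Agent.H80.CLV

open Pool.Agent.H24.CL

/-- the potential -/
noncomputable def Ph (g p : ℕ → ℝ) (j : ℕ) : ℝ := 3 * min 1 (g j) + min 1 (g (j + 1)) + p j

theorem min_add {a b : ℝ} (hb : 0 ≤ b) : min 1 (a + b) ≤ min 1 a + b := by
  rcases le_total 1 a with h | h
  · rw [min_eq_left h]
    linarith [min_le_left (1 : ℝ) (a + b)]
  · rw [min_eq_right h]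
    exact min_le_right _ _

/-- the rewards -/
theorem rewards (g p : ℕ → ℝ) (kap : ℝ) (hk : 0 < kap) (hp : ∀ j, 0 ≤ p j ∧ p j ≤ 1) (j : ℕ) :
    ∃ r : ℝ, Opt g p kap j (Ph g p j - Ph g p (j + 1) + r) ∧ p j ≤ r ∧
      (g (j + 1) + 2 * p j ≤ 1 - kap → 3 * p j + 2 * min 1 (g (j + 1)) ≤ r) ∧
      (g (j + 1) + 2 * p j ≤ 1 - kap → 3 * g (j + 1) + p j ≤ 1 - kap →
        min 1 (g (j + 2)) + g (j + 1) + 2 * p j ≤ r) := by
  have h0 := (hp j).1
  have h1 := (hp (j + 1)).1
  have a1 : min 1 (g (j + 1) + p j) ≤ min 1 (g (j + 1)) + p j := min_add h0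
  have a2 : min 1 (g (j + 2) + p (j + 1) + p j) ≤ min 1 (g (j + 2)) + p (j + 1) + p j := by
    have b1 : min 1 (g (j + 2) + p (j + 1) + p j) ≤ min 1 (g (j + 2) + p (j + 1)) + p j :=
      min_add h0
    have b2 : min 1 (g (j + 2) + p (j + 1)) ≤ min 1 (g (j + 2)) + p (j + 1) := min_add h1
    linarith
  have a3 : min 1 (g j) ≤ g j := min_le_right _ _
  have hT : ∀ r, r ≤ p j → Opt g p kap j (Ph g p j - Ph g p (j + 1) + r) := by
    intro r hr
    refine Or.inl ?_
    unfold Ph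
    linarith
  have hJ : g (j + 1) + 2 * p j ≤ 1 - kap → ∀ r, r ≤ 3 * p j + 2 * min 1 (g (j + 1)) →
      Opt g p kap j (Ph g p j - Ph g p (j + 1) + r) := by
    intro hv r hr
    refine Or.inr (Or.inl ⟨hv, ?_⟩)
    unfold Ph
    linarith
  have hS : g (j + 1) + 2 * p j ≤ 1 - kap → 3 * g (j + 1) + p j ≤ 1 - kap → ∀ r,
      r ≤ min 1 (g (j + 2)) + g (j + 1) + 2 * p j →
      Opt g p kap j (Ph g p j - Ph g p (j + 1) + r) := by
    intro hv hv' r hr
    refine Or.inr (Or.inr ⟨hv, hv', ?_⟩)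
    have e1 : min 1 (g (j + 1)) = g (j + 1) := min_eq_right (by linarith)
    unfold Ph
    rw [e1]
    linarith
  by_cases hv : g (j + 1) + 2 * p j ≤ 1 - kap
  · by_cases hv' : 3 * g (j + 1) + p j ≤ 1 - kap
    · refine ⟨max (p j) (max (3 * p j + 2 * min 1 (g (j + 1)))
        (min 1 (g (j + 2)) + g (j + 1) + 2 * p j)), ?_, le_max_left _ _, fun _ =>
          (le_max_left _ _).trans (le_max_right _ _), fun _ _ =>
          (le_max_right _ _).trans (le_max_right _ _)⟩
      rcases max_choice (p j) (max (3 * p j + 2 * min 1 (g (j + 1)))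
        (min 1 (g (j + 2)) + g (j + 1) + 2 * p j)) with h | h
      · exact hT _ h.le
      · rw [h]
        rcases max_choice (3 * p j + 2 * min 1 (g (j + 1)))
          (min 1 (g (j + 2)) + g (j + 1) + 2 * p j) with h | h
        · exact hJ hv _ h.le
        · exact hS hv hv' _ h.le
    · refine ⟨max (p j) (3 * p j + 2 * min 1 (g (j + 1))), ?_, le_max_left _ _, fun _ =>
          le_max_right _ _, fun _ h => absurd h hv'⟩
      rcases max_choice (p j) (3 * p j + 2 * min 1 (g (j + 1))) with h | h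
      · exact hT _ h.le
      · exact hJ hv _ h.le
  · exact ⟨p j, hT _ le_rfl, le_rfl, fun h => absurd h hv, fun h => absurd h hv⟩

/-- the reward of the growth in the first three windows -/
theorem start {g p R : ℕ → ℝ} {kap c₁ : ℝ} (hk : 0 < kap) (hk' : kap ≤ 1 / 200) (hc : 0 < c₁)
    (hc' : c₁ ≤ 1) (hg : ∀ j, 0 ≤ g j) (hp : ∀ j, 0 ≤ p j ∧ p j ≤ 1)
    (hR1 : ∀ j, p j ≤ R j)
    (hR2 : ∀ j, g (j + 1) + 2 * p j ≤ 1 - kap → 3 * p j + 2 * min 1 (g (j + 1)) ≤ R j)
    (hR3 : ∀ j, g (j + 1) + 2 * p j ≤ 1 - kap → 3 * g (j + 1) + p j ≤ 1 - kap →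
        min 1 (g (j + 2)) + g (j + 1) + 2 * p j ≤ R j)
    (hl : ∃ l < 3, c₁ ≤ g l) : c₁ / 8 ≤ Ph g p 0 + R 0 + R 1 := by
  have n0 : 0 ≤ R 0 := (hp 0).1.trans (hR1 0)
  have n1 : 0 ≤ R 1 := (hp 1).1.trans (hR1 1)
  have m0 : ∀ j, 0 ≤ min 1 (g j) := fun j => le_min zero_le_one (hg j)
  have mc : ∀ j c, c ≤ 1 → c ≤ g j → c ≤ min 1 (g j) := fun j c h1 h2 => le_min h1 h2
  have q0 := (hp 0).1
  have q1 := (hp 1).1
  have hPh : Ph g p 0 = 3 * min 1 (g 0) + min 1 (g 1) + p 0 := rfl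
  have m00 := m0 0
  have m01 := m0 1
  obtain ⟨l, hl3, hl⟩ := hl
  have hcase : l = 0 ∨ l = 1 ∨ l = 2 := by omega
  rcases hcase with rfl | rfl | rfl
  · have := mc 0 c₁ hc' hl
    rw [hPh]
    linarith
  · have := mc 1 c₁ hc' hl
    rw [hPh]
    linarith
  · have h2 := mc 2 c₁ hc' hl
    by_cases hv : g 2 + 2 * p 1 ≤ 1 - kap
    · have h3 := hR2 1 hv
      have h3 : 3 * p 1 + 2 * min 1 (g 2) ≤ R 1 := h3
      rw [hPh]
      linarith
    · push Not at hv
      by_cases hp1 : c₁ / 8 ≤ p 1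
      · have := hR1 1
        rw [hPh]
        linarith
      · push Not at hp1
        have hg2 : 1 / 2 ≤ g 2 := by linarith
        have h2' := mc 2 (1 / 2) (by norm_num) hg2
        by_cases hp0 : 1 / 6 ≤ p 0
        · rw [hPh]
          linarith
        · push Not at hp0
          by_cases hg1 : 1 / 6 ≤ g 1
          · have := mc 1 (1 / 6) (by norm_num) hg1
            rw [hPh]
            linarith
          · push Not at hg1
            have hg1' := hg 1
            have h3 := hR3 0 (show g 1 + 2 * p 0 ≤ 1 - kap by linarith)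
              (show 3 * g 1 + p 0 ≤ 1 - kap by linarith)
            have h3 : min 1 (g 2) + g 1 + 2 * p 0 ≤ R 0 := h3
            rw [hPh]
            linarith

/-- the reward at a window which is neither full nor quiet -/
theorem local_reward {g p R : ℕ → ℝ} {kap d : ℝ} (hk : 0 < kap) (hk' : kap ≤ 1 / 200)
    (hd : 0 < d) (hd' : d ≤ 1 / 100) (hg : ∀ j, 0 ≤ g j) (hp : ∀ j, 0 ≤ p j ∧ p j ≤ 1)
    (hR1 : ∀ j, p j ≤ R j)
    (hR2 : ∀ j, g (j + 1) + 2 * p j ≤ 1 - kap → 3 * p j + 2 * min 1 (g (j + 1)) ≤ R j)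
    (hR3 : ∀ j, g (j + 1) + 2 * p j ≤ 1 - kap → 3 * g (j + 1) + p j ≤ 1 - kap →
        min 1 (g (j + 2)) + g (j + 1) + 2 * p j ≤ R j)
    (l : ℕ) (hl : g (l + 1) ≤ 1 - 1 / 40)
    (hq : ¬ (g (l + 1) ≤ d ∧ g (l + 2) ≤ d ∧ p (l + 1) ≤ d)) : d ≤ R l + R (l + 1) := by
  have n0 : 0 ≤ R l := (hp l).1.trans (hR1 l)
  have n1 : 0 ≤ R (l + 1) := (hp (l + 1)).1.trans (hR1 (l + 1))
  have mc : ∀ j c, c ≤ 1 → c ≤ g j → c ≤ min 1 (g j) := fun j c h1 h2 => le_min h1 h2
  have q0 := (hp l).1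
  have q1 := (hp (l + 1)).1
  have t0 := hR1 l
  have t1 := hR1 (l + 1)
  have g1 := hg (l + 1)
  by_cases h1 : g (l + 1) ≤ d
  · by_cases h2 : p (l + 1) ≤ d
    · have h3 : d < g (l + 2) := by
        by_contra h3
        push Not at h3
        exact hq ⟨h1, h3, h2⟩
      by_cases hv : g (l + 2) + 2 * p (l + 1) ≤ 1 - kap
      · have h4 : 3 * p (l + 1) + 2 * min 1 (g (l + 2)) ≤ R (l + 1) := hR2 (l + 1) hv
        have h5 := mc (l + 2) d (by linarith) h3.le
        linarith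
      · push Not at hv
        have h4 := mc (l + 2) (1 / 2) (by norm_num) (by linarith)
        by_cases h5 : p l ≤ 1 / 4
        · have h6 := hR3 l (by linarith) (by linarith)
          linarith
        · push Not at h5
          linarith
    · push Not at h2
      linarith
  · push Not at h1
    by_cases hv : g (l + 1) + 2 * p l ≤ 1 - kap
    · have h4 := hR2 l hv
      have h5 := mc (l + 1) d (by linarith) h1.le
      linarith
    · push Not at hv
      linarith

/-- many windows are not full -/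
theorem count {g : ℕ → ℝ} {D : ℝ} {m : ℕ} (hm : (m : ℝ) ≤ 10 * D) (hg : ∀ j, 0 ≤ g j)
    (hs : D - 4 ≤ ∑ j ∈ range m, (1 - g j)) :
    3 / 4 * D - 4 ≤ (((range m).filter fun l => g l ≤ 1 - 1 / 40).card : ℝ) := by
  have h1 : ∑ j ∈ range m, (1 - g j) ≤
      ∑ j ∈ range m, ((if g j ≤ 1 - 1 / 40 then (1 : ℝ) else 0) + 1 / 40) := by
    refine Finset.sum_le_sum fun j _ => ?_
    have := hg j
    split_ifs with h
    · linarith
    · linarith
  rw [Finset.sum_add_distrib, Finset.sum_const, card_range, nsmul_eq_mul] at h1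
  have h2 : ∑ j ∈ range m, (if g j ≤ 1 - 1 / 40 then (1 : ℝ) else 0) =
      (((range m).filter fun l => g l ≤ 1 - 1 / 40).card : ℝ) := by
    rw [← Finset.sum_filter, Finset.sum_const, nsmul_eq_mul, mul_one]
  rw [h2] at h1
  linarith

/-- the sum of the rewards -/
theorem total {g R : ℕ → ℝ} {d : ℝ} {m : ℕ} (hR : ∀ j, 0 ≤ R j)
    (h : ∀ l, 2 ≤ l → l + 4 ≤ m → g (l + 1) ≤ 1 - 1 / 40 → d ≤ R l + R (l + 1)) (hd : 0 ≤ d) :
    d * ((((range m).filter fun l => g l ≤ 1 - 1 / 40).card : ℝ) - 5) ≤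
      2 * ∑ j ∈ range (m - 2), R j := by
  classical
  set N := (range m).filter fun l => g l ≤ 1 - 1 / 40 with hN
  set A := N.filter fun l => 3 ≤ l ∧ l + 3 ≤ m with hA
  have hcard : N.card ≤ A.card + 5 := by
    have hsub : N ⊆ A ∪ (range 3 ∪ Ico (m - 2) m) := by
      intro l hl
      rw [mem_union, mem_union, mem_range, mem_Ico]
      by_cases h1 : 3 ≤ l ∧ l + 3 ≤ m
      · exact Or.inl (mem_filter.2 ⟨hl, h1⟩)
      · have hlm := mem_range.1 (mem_filter.1 hl).1
        right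
        omega
    have h1 := Finset.card_le_card hsub
    have h2 := Finset.card_union_le A (range 3 ∪ Ico (m - 2) m)
    have h3 := Finset.card_union_le (range 3) (Ico (m - 2) m)
    rw [card_range, Nat.card_Ico] at h3
    omega
  have h1 : d * (A.card : ℝ) ≤ ∑ l ∈ A, (R (l - 1) + R l) := by
    rw [mul_comm, ← nsmul_eq_mul]
    refine Finset.card_nsmul_le_sum _ _ _ fun l hl => ?_
    obtain ⟨hl1, hl2, hl3⟩ := mem_filter.1 hl
    obtain ⟨_, hl4⟩ := mem_filter.1 hl1
    have := h (l - 1) (by omega) (by omega) (by rw [show l - 1 + 1 = l by omega]; exact hl4)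
    rwa [show l - 1 + 1 = l by omega] at this
  have h2 : ∑ l ∈ A, R l ≤ ∑ j ∈ range (m - 2), R j := by
    refine Finset.sum_le_sum_of_subset_of_nonneg ?_ fun j _ _ => hR j
    intro l hl
    have := (mem_filter.1 hl).2
    rw [mem_range]
    omega
  have h3 : ∑ l ∈ A, R (l - 1) ≤ ∑ j ∈ range (m - 2), R j := by
    have h4 : ∑ l ∈ A, R (l - 1) = ∑ j ∈ A.image fun l => l - 1, R j := by
      rw [Finset.sum_image]
      intro a ha b hb hab
      have h5 := (mem_filter.1 ha).2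
      have h6 := (mem_filter.1 hb).2
      have hab : a - 1 = b - 1 := hab
      omega
    rw [h4]
    refine Finset.sum_le_sum_of_subset_of_nonneg ?_ fun j _ _ => hR j
    intro j hj
    obtain ⟨l, hl, rfl⟩ := mem_image.1 hj
    have := (mem_filter.1 hl).2
    rw [mem_range]
    omega
  rw [Finset.sum_add_distrib] at h1
  have h5 : (N.card : ℝ) - 5 ≤ A.card := by
    have : (N.card : ℝ) ≤ A.card + 5 := by exact_mod_cast hcard
    linarith
  have h6 := mul_le_mul_of_nonneg_left h5 hd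
  linarith

theorem pf_GA : T_GA := by
  intro c₁ hc hc'
  refine ⟨c₁ / 16, 1600 / c₁ + 12, by positivity, fun D hD => ⟨1 / 200, by norm_num, ?_⟩⟩
  intro m g p hm hg hp _ hs hl
  choose R hR0 hR1 hR2 hR3 using rewards g p (1 / 200) (by norm_num) hp
  have hRn : ∀ j, 0 ≤ R j := fun j => (hp j).1.trans (hR1 j)
  have hst := start (by norm_num) le_rfl hc hc' hg hp hR1 hR2 hR3 hl
  set d := c₁ / 100 with hd
  have hd0 : 0 < d := by positivity
  have hd1 : d ≤ 1 / 100 := by rw [hd]; linarith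
  -- the sum
  have hsum : ∀ n, ∑ j ∈ range n, (Ph g p j - Ph g p (j + 1) + R j) =
      Ph g p 0 - Ph g p n + ∑ j ∈ range n, R j := by
    intro n
    rw [Finset.sum_add_distrib, Finset.sum_range_sub']
  have hR01 : ∀ n, 2 ≤ n → R 0 + R 1 ≤ ∑ j ∈ range n, R j := by
    intro n hn
    have h1 : ∑ j ∈ range 2, R j ≤ ∑ j ∈ range n, R j :=
      Finset.sum_le_sum_of_subset_of_nonneg (Finset.range_mono hn) fun j _ _ => hRn j
    rw [Finset.sum_range_succ, Finset.sum_range_one] at h1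
    exact h1
  by_cases hq : ∃ j, 3 ≤ j ∧ j + 2 ≤ m ∧ g j ≤ d ∧ g (j + 1) ≤ d ∧ p j ≤ d
  · obtain ⟨j, hj3, hjm, h1, h2, h3⟩ := hq
    refine ⟨j, fun j => Ph g p j - Ph g p (j + 1) + R j, hjm, fun j _ => hR0 j, ?_⟩
    rw [hsum]
    have h4 := hR01 j (by omega)
    have h5 : Ph g p j ≤ 5 * d := by
      have e1 : min 1 (g j) ≤ g j := min_le_right _ _
      have e2 : min 1 (g (j + 1)) ≤ g (j + 1) := min_le_right _ _
      unfold Ph
      linarith
    have h6 : 5 * d = c₁ / 20 := by rw [hd]; ring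
    linarith
  · have hm1 : D - 4 ≤ m := by
      have h1 : ∑ j ∈ range m, (1 - g j) ≤ ∑ j ∈ range m, (1 : ℝ) :=
        Finset.sum_le_sum fun j _ => by linarith [hg j]
      rw [Finset.sum_const, card_range, nsmul_eq_mul, mul_one] at h1
      linarith
    have hD1 : 0 < 1600 / c₁ := by positivity
    have hm2 : 2 ≤ m := by
      have : (2 : ℝ) ≤ m := by linarith
      exact_mod_cast this
    refine ⟨m - 2, fun j => Ph g p j - Ph g p (j + 1) + R j, by omega, fun j _ => hR0 j, ?_⟩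
    rw [hsum]
    have h1 := count hm hg hs
    have h2 := total (g := g) (m := m) (d := d) hRn (fun l hl2 hlm hgl =>
      local_reward (by norm_num) le_rfl hd0 hd1 hg hp hR1 hR2 hR3 l hgl (fun hn =>
        hq ⟨l + 1, by omega, by omega, hn⟩)) hd0.le
    have h3 : d * (3 / 4 * D - 4 - 5) ≤
        d * ((((range m).filter fun l => g l ≤ 1 - 1 / 40).card : ℝ) - 5) :=
      mul_le_mul_of_nonneg_left (by linarith) hd0.le
    have h4 : 12 ≤ d * (3 / 4 * D - 4 - 5) := by
      have h5 : 1200 / c₁ ≤ 3 / 4 * D - 4 - 5 := by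
        have : 1200 / c₁ = 3 / 4 * (1600 / c₁) := by ring
        rw [this]
        linarith
      have h6 : d * (1200 / c₁) = 12 := by
        rw [hd]
        field_simp
        norm_num
      rw [← h6]
      exact mul_le_mul_of_nonneg_left h5 hd0.le
    have h7 : 0 ≤ Ph g p 0 := by
      unfold Ph
      have e1 : 0 ≤ min 1 (g 0) := le_min zero_le_one (hg 0)
      have e2 : 0 ≤ min 1 (g (0 + 1)) := le_min zero_le_one (hg _)
      have e3 := (hp 0).1
      linarith
    have h8 : Ph g p (m - 2) ≤ 5 := by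
      unfold Ph
      have e1 : min 1 (g (m - 2)) ≤ 1 := min_le_left _ _
      have e2 : min 1 (g (m - 2 + 1)) ≤ 1 := min_le_left _ _
      have e3 := (hp (m - 2)).2
      linarith
    linarith

end Pool.Agent.H80.CLV
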